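import Pool.Agent.N282.PM.All

/-!
# Montgomery's large values conjecture for almost every perturbation of the integers

Let `U_1, U_2, …` be independent and uniform on `[0,1]` and let `0 < δ_n ≤ 1` decay more slowly than every power of
`n` (for instance `δ_n = 1` or `δ_n = 1 / log (n + 2)`). Almost surely the conjecture of Q1 holds with the integers
`n` replaced by `n + δ_n U_n`, and in a stronger form: for ALL complex coefficients `a_n`, all `T ≤ N^A` and all
`1`-separated finite sets `S ⊂ [0,T]`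

`∑_{t ∈ S} |∑_{n ≤ N} a_n (n + δ_n U_n)^{it}|² ≤ C N^ε (N + |S|) ∑ |a_n|²`

(`∑ |a_n|² ≤ N` if `|a_n| ≤ 1`). For the integers themselves this `ℓ²` form is false (Bourgain). There is no
hypothesis.

Proof. By duality one has to bound `∑_n |∑_{t ∈ A} x_n^{it}|²` for all `1`-separated sets `A` at once. For fixed `A` the
mean over the perturbations is `O(N |A| / δ)` (mean value theorem for separated frequencies). A level set
`{n : |∑_{t ∈ A} x_n^{it}| ≥ λ}` is, by Maurey's method, a level set of a sum over `O(|A|² λ⁻² log N)` elements of `A`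
only, and a union bound over these short sums suffices. The rest is dyadic summation, rounding of the real numbers
`t`, and the Borel–Cantelli lemma. Parts were formalised by helpers 477, 593, 394, 615, 954, 11, 592.
-/

set_option autoImplicit false

open MeasureTheory Filter Topology

namespace Pool.Agent.Results.MP_71ac24_nt.PerturbedIntegers

/-- The Dirichlet polynomial `∑_{n ≤ N} a_n x_n^{it}` with the numbers `x_n` in place of the integers `n`. -/
noncomputable def D (x : ℕ → ℝ) (a : ℕ → ℂ) (N : ℕ) (t : ℝ) : ℂ :=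
  ∑ n ∈ Finset.Icc 1 N, a n * Complex.exp (Complex.I * t * Real.log (x n))

/-- Almost surely, for all `ε, A > 0` there is `C` such that for all `N ≥ 1`, all `T ≤ N^A`, all finite
`1`-separated sets `S ⊂ [0, T]` and ALL complex coefficients `a_n` the inequality of Q1 holds with `n + δ_n U_n` in
place of `n` and with `∑ |a_n|²` in place of the last factor `N`. -/
theorem result {Ω : Type} [MeasurableSpace Ω] (P : Measure Ω) [IsProbabilityMeasure P] (U : ℕ → Ω → ℝ)
    (hm : ∀ n, Measurable (U n)) (hi : ProbabilityTheory.iIndepFun U P)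
    (hU : ∀ n, P.map (U n) = volume.restrict (Set.Icc 0 1)) (δ : ℕ → ℝ) (hδ : ∀ n, 0 < δ n ∧ δ n ≤ 1)
    (hδ' : ∀ ε : ℝ, 0 < ε → ∃ c : ℝ, 0 < c ∧ ∀ n : ℕ, 1 ≤ n → c * (n : ℝ) ^ (-ε) ≤ δ n) :
    ∀ᵐ ω ∂P, ∀ ε A : ℝ, 0 < ε → 0 < A → ∃ C : ℝ, ∀ (N : ℕ) (T : ℝ), 1 ≤ N → T ≤ (N : ℝ) ^ A →
      ∀ S : Finset ℝ, (∀ t ∈ S, 0 ≤ t ∧ t ≤ T) → (∀ t ∈ S, ∀ u ∈ S, t ≠ u → 1 ≤ |t - u|) → ∀ a : ℕ → ℂ,
        ∑ t ∈ S, ‖D (fun n => n + δ n * U n ω) a N t‖ ^ 2 ≤
          C * (N : ℝ) ^ ε * (N + S.card) * ∑ n ∈ Finset.Icc 1 N, ‖a n‖ ^ 2 := by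
  filter_upwards [Pool.Agent.N282.PM.a_AS Ω _ P inferInstance U (fun n => (n : ℝ)) δ 1 hm hi hU le_rfl
    Pool.Agent.N282.PM.spread_id hδ hδ'] with ω hω
  intro ε A hε hA
  obtain ⟨C, -, hC⟩ := hω ε A hε hA
  refine ⟨C, fun N T hN hT S hS hsep a => ?_⟩
  exact hC N hN S (fun t ht => ⟨(hS t ht).1, (hS t ht).2.trans hT⟩) hsep a

end Pool.Agent.Results.MP_71ac24_nt.PerturbedIntegers
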