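import Pool.Agent.N282.PM.All
import Pool.Agent.N282.PM.Beu2

/-!
# Montgomery's large values conjecture for generalised integers with randomly perturbed primes

Replace every prime `p` by `ξ_p = p + δ_p U_p`, `U_p` independent and uniform on `[0,1]`, `0 < δ_p ≤ 1` decaying more
slowly than every power of `p`, and every integer `n = ∏ p^k` by the generalised integer `x_n = ∏ ξ_p^k` of Beurling.
The multiplicative structure is kept. Almost surely, for all coefficients `a_n` supported on the integers which have a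
prime factor `> Q`, `Q ≥ N^θ`, all `T ≤ N^A` and all `1`-separated `S ⊂ [0, T]`

`∑_{t ∈ S} |∑_{n ≤ N} a_n x_n^{it}|² ≤ C N^ε (N + |S| N / Q) ∑ |a_n|²`.

For `|S| ≤ Q` this is the bound of Q1 (and more, since the coefficients are arbitrary); for coefficients supported on the
primes in `(N/2, N]` one can take `Q = N^(1-ε)`, and it is the bound of Q1 for all `S`. There is no hypothesis.

Proof. The inequality for the primes alone follows from `MP_71ac24_nt.PerturbedIntegers`; an integer with a prime factor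
`p > Q` is `p m`, `m < N / Q`, and one sums over `m` with the Cauchy–Schwarz inequality with weights `N / m + |S|`. Parts
of the project were formalised by helpers 477, 593, 394, 615, 954, 11, 592.
-/

set_option autoImplicit false

open MeasureTheory Filter Topology

namespace Pool.Agent.Results.MP_71ac24_nt.RandomPrimes

/-- The generalised integers: `z ξ n = ∏ ξ_p^k` if `n = ∏ p^k`. -/
noncomputable def z (ξ : ℕ → ℝ) (n : ℕ) : ℝ := n.factorization.prod fun p k => ξ p ^ k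

/-- The Dirichlet polynomial `∑_{n ≤ N} a_n x_n^{it}` with the numbers `x_n` in place of the integers `n`. -/
noncomputable def D (x : ℕ → ℝ) (a : ℕ → ℂ) (N : ℕ) (t : ℝ) : ℂ :=
  ∑ n ∈ Finset.Icc 1 N, a n * Complex.exp (Complex.I * t * Real.log (x n))

/-- Almost surely: for all `ε, A, θ > 0` there is `C` such that for all `N ≥ 1`, `T ≤ N^A`, `Q ≥ N^θ`, all finite
`1`-separated `S ⊂ [0, T]` and all `a_n` with `a_n = 0` unless `n` has a prime factor `> Q`, the sum over `t ∈ S` of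
`|∑_{n ≤ N} a_n x_n^{it}|²` is at most `C N^ε (N + |S| N / Q) ∑ |a_n|²`. -/
theorem result {Ω : Type} [MeasurableSpace Ω] (P : Measure Ω) [IsProbabilityMeasure P] (U : ℕ → Ω → ℝ)
    (hm : ∀ n, Measurable (U n)) (hi : ProbabilityTheory.iIndepFun U P)
    (hU : ∀ n, P.map (U n) = volume.restrict (Set.Icc 0 1)) (δ : ℕ → ℝ) (hδ : ∀ n, 0 < δ n ∧ δ n ≤ 1)
    (hδ' : ∀ ε : ℝ, 0 < ε → ∃ c : ℝ, 0 < c ∧ ∀ n : ℕ, 1 ≤ n → c * (n : ℝ) ^ (-ε) ≤ δ n) :
    ∀ᵐ ω ∂P, ∀ ε A θ : ℝ, 0 < ε → 0 < A → 0 < θ → ∃ C : ℝ, ∀ (N : ℕ) (T Q : ℝ), 1 ≤ N → T ≤ (N : ℝ) ^ A →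
      (N : ℝ) ^ θ ≤ Q → ∀ S : Finset ℝ, (∀ t ∈ S, 0 ≤ t ∧ t ≤ T) → (∀ t ∈ S, ∀ u ∈ S, t ≠ u → 1 ≤ |t - u|) →
        ∀ a : ℕ → ℂ, (∀ n, a n ≠ 0 → ∃ p : ℕ, p.Prime ∧ p ∣ n ∧ Q < p) →
          ∑ t ∈ S, ‖D (z fun p => p + δ p * U p ω) a N t‖ ^ 2 ≤
            C * (N : ℝ) ^ ε * (N + S.card * (N / Q)) * ∑ n ∈ Finset.Icc 1 N, ‖a n‖ ^ 2 := by
  have hpos : ∀ᵐ ω ∂P, ∀ n, 0 ≤ U n ω := by
    rw [ae_all_iff]
    intro n
    have h1 : ∀ᵐ u ∂(P.map (U n)), 0 ≤ u := by
      rw [hU n]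
      exact (ae_restrict_mem measurableSet_Icc).mono fun u hu => hu.1
    exact ae_of_ae_map (hm n).aemeasurable h1
  filter_upwards [Pool.Agent.N282.PM.a_AS Ω _ P inferInstance U (fun n => (n : ℝ)) δ 1 hm hi hU le_rfl
    Pool.Agent.N282.PM.spread_id hδ hδ', hpos] with ω hω hω'
  intro ε A θ hε hA hθ
  obtain ⟨C, -, hC⟩ := Pool.Agent.N282.PM.Beu_main _ hω (fun p hp => by
    have h1 : (0 : ℝ) < p := by exact_mod_cast hp.pos
    have h2 := (hδ p).1
    have h3 := hω' p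
    show 0 < (p : ℝ) + δ p * U p ω
    positivity) ε A θ hε hA hθ
  refine ⟨C, fun N T Q hN hT hQ S hS hsep a ha => ?_⟩
  have h := hC N Q hN hQ S (fun t ht => ⟨(hS t ht).1, (hS t ht).2.trans hT⟩) hsep a (fun n _ hn => ha n hn)
  rw [mul_comm ((S.card : ℝ)) (N / Q)]
  exact h

end Pool.Agent.Results.MP_71ac24_nt.RandomPrimes
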