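import Mathlib
import Pool.Agent.N793.LV.Del

set_option autoImplicit false

/-!
# Montgomery's conjecture is a weighted `ℓ²` large sieve inequality

The `ℓ²` form of the conjecture, `∑_{t ∈ 𝒯} |D(t)|² ≤ C N^ε (N + |𝒯|) ∑ |a_n|²` for all complex
coefficients, is false (Bourgain). We show that the conjecture itself (for the coefficients bounded by `1`)
is equivalent to the `ℓ²` form with a weight of mean `1` in `n`, which may depend on `𝒯`: for every `𝒯` there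
is `w ≥ 0` with `∑_{n ≤ N} w_n ≤ N` and `∑_{t ∈ 𝒯} |D(t)|² ≤ C N^ε (N + |𝒯|) ∑ w_n |a_n|²` for ALL complex
coefficients; and that it is equivalent to the `ℓ²` form after the deletion of a small proportion of the
integers `n` (in its hereditary form: every set `S` of integers in `[1, N]` contains `G` with
`|S ∖ G| ≤ η |S|` such that the `ℓ²` large sieve inequality holds for all coefficients supported on `G`, with
the additional factor `N / |S|`). Here `η ∈ (0, 1)` can be fixed arbitrarily.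
-/

namespace Pool.Agent.Results.MP_71ac24_nt.WeightedLargeSieve

open Finset

/-- `D(t) = ∑_{n ≤ N} a_n n^{it}` -/
noncomputable def D (N : ℕ) (a : ℕ → ℂ) (t : ℝ) : ℂ :=
  ∑ n ∈ Icc 1 N, a n * Complex.exp (Complex.I * (t : ℂ) * (Real.log (n : ℝ) : ℂ))

/-- `W` is a `1`-separated set in `[0, T]` -/
def Separated (T : ℝ) (W : Finset ℝ) : Prop :=
  (∀ t ∈ W, 0 ≤ t ∧ t ≤ T) ∧ ∀ t ∈ W, ∀ u ∈ W, t ≠ u → 1 ≤ |t - u|

/-- Q1 -/
def Question : Prop :=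
  ∀ ε : ℝ, 0 < ε → ∃ C : ℝ, 0 < C ∧ ∀ N : ℕ, 1 ≤ N → ∀ T : ℝ, T ≤ (N : ℝ) ^ 2 →
    ∀ a : ℕ → ℂ, (∀ n, ‖a n‖ ≤ 1) → ∀ W : Finset ℝ, Separated T W →
      ∑ t ∈ W, ‖D N a t‖ ^ 2 ≤ C * (N : ℝ) ^ ε * ((N : ℝ) + W.card) * N

/-- the `ℓ²` large sieve inequality with a weight of mean at most `1` depending on `W` -/
def Weighted : Prop :=
  ∀ ε : ℝ, 0 < ε → ∃ C : ℝ, 0 < C ∧ ∀ N : ℕ, 1 ≤ N → ∀ T : ℝ, T ≤ (N : ℝ) ^ 2 →
    ∀ W : Finset ℝ, Separated T W → ∃ w : ℕ → ℝ, (∀ n, 0 ≤ w n) ∧ ∑ n ∈ Icc 1 N, w n ≤ N ∧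
      ∀ a : ℕ → ℂ, ∑ t ∈ W, ‖D N a t‖ ^ 2 ≤
        C * (N : ℝ) ^ ε * ((N : ℝ) + W.card) * ∑ n ∈ Icc 1 N, w n * ‖a n‖ ^ 2

/-- the `ℓ²` large sieve inequality after the deletion of a proportion `η` of any set of integers -/
def Deleted (η : ℝ) : Prop :=
  ∀ ε : ℝ, 0 < ε → ∃ C : ℝ, 0 < C ∧ ∀ N : ℕ, 1 ≤ N → ∀ T : ℝ, T ≤ (N : ℝ) ^ 2 →
    ∀ W : Finset ℝ, Separated T W → ∀ S ⊆ Icc 1 N, S.Nonempty →
      ∃ G ⊆ S, ((S \ G).card : ℝ) ≤ η * S.card ∧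
        ∀ a : ℕ → ℂ, (∀ n, n ∉ G → a n = 0) → ∑ t ∈ W, ‖D N a t‖ ^ 2 ≤
          C * (N : ℝ) ^ ε * ((N : ℝ) + W.card) * ((N : ℝ) / S.card) * ∑ n ∈ G, ‖a n‖ ^ 2

open Pool.Agent.N793.LV (F)
open Pool.Agent.N793.LV.Pie

theorem Q_eq (N : ℕ) (W : Finset ℝ) (a : ℕ → ℂ) :
    ∑ t ∈ W, ‖D N a t‖ ^ 2 = Q (Icc 1 N) (fun n => Real.log (n : ℝ)) W a := rfl

theorem log16 {x : ℝ} (hx : 1 ≤ x) : Real.log (16 * x) ≤ 3 * (1 + Real.log x) := by
  rw [Real.log_mul (by norm_num) (by linarith)]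
  have : (16 : ℝ) = 2 ^ 4 := by norm_num
  rw [this, Real.log_pow]
  have h5 := Real.log_two_lt_d9
  have h6 := Real.log_nonneg hx
  push_cast
  linarith

theorem log_pow {δ : ℝ} (hδ : 0 < δ) : ∃ K : ℝ, 0 < K ∧ ∀ x : ℝ, 1 ≤ x → 1 + Real.log x ≤ K * x ^ δ := by
  refine ⟨1 + 1 / δ, by positivity, ?_⟩
  intro x hx
  have h1 := Real.log_le_rpow_div (by linarith : (0 : ℝ) ≤ x) hδ
  have h2 : 1 ≤ x ^ δ := Real.one_le_rpow hx hδ.le
  calc 1 + Real.log x ≤ x ^ δ + x ^ δ / δ := by linarith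
    _ = _ := by ring

/-- the inequality for one set `W` -/
theorem one (N : ℕ) (hN : 1 ≤ N) (W : Finset ℝ) (M : ℝ)
    (hM : ∀ a : ℕ → ℂ, (∀ n, ‖a n‖ ≤ 1) → ∑ t ∈ W, ‖D N a t‖ ^ 2 ≤ M) :
    ∃ w : ℕ → ℝ, (∀ n, 0 ≤ w n) ∧ ∑ n ∈ Icc 1 N, w n = 1 ∧
      ∀ a : ℕ → ℂ, ∑ t ∈ W, ‖D N a t‖ ^ 2 ≤
        36 * (1 + Real.log N) * M * ∑ n ∈ Icc 1 N, w n * ‖a n‖ ^ 2 := by
  classical
  have hN1 : (1 : ℝ) ≤ N := by exact_mod_cast hN
  have hc : ((Icc 1 N).card : ℝ) = N := by rw [Nat.card_Icc, Nat.add_sub_cancel]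
  have hM' : ∀ a : ℕ → ℂ, (∀ n ∈ Icc 1 N, ‖a n‖ ≤ 1) →
      Q (Icc 1 N) (fun n => Real.log (n : ℝ)) W a ≤ M := by
    intro a ha
    have h1 := hM (fun n => if n ∈ Icc 1 N then a n else 0) (by
      intro n
      split_ifs with h
      · exact ha n h
      · simp)
    rw [Q_eq] at h1
    rw [Q_congr (Icc 1 N) _ W a (fun n => if n ∈ Icc 1 N then a n else 0) (fun n hn => by
      rw [if_pos hn])]
    exact h1
  have hM0 : 0 ≤ M := (Q_nonneg _ _ _ _).trans (hM' (fun _ => 0) (fun _ _ => by simp))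
  obtain ⟨w, hw0, hw1, hw⟩ := weights (Icc 1 N) ⟨1, mem_Icc.2 ⟨le_rfl, hN⟩⟩
    (fun n => Real.log (n : ℝ)) W hM'
  refine ⟨w, hw0, hw1, ?_⟩
  intro a
  rw [Q_eq]
  refine (hw a).trans ?_
  rw [hc]
  have h1 := log16 hN1
  have h2 : 0 ≤ ∑ n ∈ Icc 1 N, w n * ‖a n‖ ^ 2 :=
    sum_nonneg fun n _ => mul_nonneg (hw0 n) (sq_nonneg _)
  apply mul_le_mul_of_nonneg_right _ h2
  apply mul_le_mul_of_nonneg_right _ hM0
  linarith

theorem weighted_of (h : Question) : Weighted := by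
  intro ε hε
  obtain ⟨C, hC, hq⟩ := h (ε / 2) (by linarith)
  obtain ⟨K, hK, hlog⟩ := log_pow (δ := ε / 2) (by linarith)
  refine ⟨36 * K * C, by positivity, ?_⟩
  intro N hN T hT W hW
  have hN1 : (1 : ℝ) ≤ N := by exact_mod_cast hN
  have hN0 : (0 : ℝ) < N := by linarith
  obtain ⟨w, hw0, hw1, hw⟩ := one N hN W _ (fun a ha => hq N hN T hT a ha W hW)
  refine ⟨fun n => N * w n, fun n => mul_nonneg hN0.le (hw0 n), ?_, ?_⟩
  · rw [← mul_sum, hw1, mul_one]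
  · intro a
    refine (hw a).trans ?_
    have e : ∑ n ∈ Icc 1 N, (N * w n) * ‖a n‖ ^ 2 = N * ∑ n ∈ Icc 1 N, w n * ‖a n‖ ^ 2 := by
      rw [mul_sum]
      exact sum_congr rfl fun n _ => by ring
    rw [e]
    have h2 : 0 ≤ ∑ n ∈ Icc 1 N, w n * ‖a n‖ ^ 2 :=
      sum_nonneg fun n _ => mul_nonneg (hw0 n) (sq_nonneg _)
    have h3 := hlog N hN1
    have e2 : (N : ℝ) ^ ε = (N : ℝ) ^ (ε / 2) * (N : ℝ) ^ (ε / 2) := by
      rw [← Real.rpow_add hN0]; congr 1; ring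
    rw [e2]
    calc 36 * (1 + Real.log N) * (C * (N : ℝ) ^ (ε / 2) * (N + W.card) * N) *
          ∑ n ∈ Icc 1 N, w n * ‖a n‖ ^ 2
        ≤ 36 * (K * (N : ℝ) ^ (ε / 2)) * (C * (N : ℝ) ^ (ε / 2) * (N + W.card) * N) *
          ∑ n ∈ Icc 1 N, w n * ‖a n‖ ^ 2 := by
          apply mul_le_mul_of_nonneg_right _ h2
          apply mul_le_mul_of_nonneg_right _ (by positivity)
          linarith
      _ = _ := by ring

theorem of_weighted (h : Weighted) : Question := by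
  intro ε hε
  obtain ⟨C, hC, hq⟩ := h ε hε
  refine ⟨C, hC, ?_⟩
  intro N hN T hT a ha W hW
  obtain ⟨w, hw0, hw1, hw⟩ := hq N hN T hT W hW
  refine (hw a).trans ?_
  apply mul_le_mul_of_nonneg_left _ (by positivity)
  refine le_trans (sum_le_sum fun n _ => ?_) hw1
  have h1 : ‖a n‖ ^ 2 ≤ 1 := pow_le_one₀ (norm_nonneg _) (ha n)
  exact mul_le_of_le_one_right (hw0 n) h1

theorem deleted_of (h : Question) {η : ℝ} (hη : 0 < η) : Deleted η := by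
  classical
  intro ε hε
  obtain ⟨C, hC, hq⟩ := h (ε / 2) (by linarith)
  obtain ⟨K, hK, hlog⟩ := log_pow (δ := ε / 2) (by linarith)
  refine ⟨36 * K * C / η, by positivity, ?_⟩
  intro N hN T hT W hW S hS hne
  have hN1 : (1 : ℝ) ≤ N := by exact_mod_cast hN
  have hN0 : (0 : ℝ) < N := by linarith
  have hS1 : (1 : ℝ) ≤ S.card := by exact_mod_cast hne.card_pos
  have hSN : (S.card : ℝ) ≤ N := by
    have h1 := card_le_card hS
    rw [Nat.card_Icc, Nat.add_sub_cancel] at h1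
    exact_mod_cast h1
  set lam : ℕ → ℝ := fun n => Real.log (n : ℝ) with hlam
  obtain ⟨G, hG, hcG, hGa⟩ := del S hne lam W hη (M := C * (N : ℝ) ^ (ε / 2) * ((N : ℝ) + W.card) * N) (by
    intro a ha
    have h1 := hq N hN T hT (fun n => if n ∈ S then a n else 0) (by
      intro n
      split_ifs with h
      · exact ha n h
      · simp) W hW
    rw [Q_eq, Q_sub (Icc 1 N) S hS _ W _ (fun n hn => by rw [if_neg hn]),
      Q_congr S _ W _ a (fun n hn => by rw [if_pos hn])] at h1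
    exact h1)
  refine ⟨G, hG, hcG, ?_⟩
  intro a ha
  rw [Q_eq, Q_sub (Icc 1 N) G (hG.trans hS) _ W a ha]
  refine (hGa a).trans ?_
  have h2 : 0 ≤ ∑ n ∈ G, ‖a n‖ ^ 2 := sum_nonneg fun n _ => sq_nonneg _
  have h3 : Real.log (16 * S.card) ≤ 3 * (K * (N : ℝ) ^ (ε / 2)) := by
    have h4 := log16 hS1
    have h5 := Real.log_le_log (by linarith) hSN
    have h6 := hlog N hN1
    linarith
  have e2 : (N : ℝ) ^ ε = (N : ℝ) ^ (ε / 2) * (N : ℝ) ^ (ε / 2) := by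
    rw [← Real.rpow_add hN0]; congr 1; ring
  rw [e2]
  calc 12 * Real.log (16 * S.card) * (C * (N : ℝ) ^ (ε / 2) * ((N : ℝ) + W.card) * N) *
        (1 / (η * S.card)) * ∑ n ∈ G, ‖a n‖ ^ 2
      ≤ 12 * (3 * (K * (N : ℝ) ^ (ε / 2))) * (C * (N : ℝ) ^ (ε / 2) * ((N : ℝ) + W.card) * N) *
        (1 / (η * S.card)) * ∑ n ∈ G, ‖a n‖ ^ 2 := by gcongr
    _ = _ := by field_simp; ring

theorem of_deleted {η : ℝ} (hη : 0 < η) (hη1 : η < 1) (h : Deleted η) : Question := by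
  classical
  intro ε hε
  obtain ⟨C, hC, hq⟩ := h (ε / 3) (by linarith)
  obtain ⟨K, hK, hlog⟩ := log_pow (δ := ε / 3) (by linarith)
  have hθ : 1 < 1 / η := by rw [lt_div_iff₀ hη]; linarith
  have hlθ : 0 < Real.log (1 / η) := Real.log_pos hθ
  set K' : ℝ := (1 + 1 / Real.log (1 / η)) * K with hK'
  have hK'0 : 0 < K' := by positivity
  refine ⟨K' ^ 2 * C, by positivity, ?_⟩
  intro N hN T hT a ha W hW
  have hN1 : (1 : ℝ) ≤ N := by exact_mod_cast hN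
  have hN0 : (0 : ℝ) < N := by linarith
  have hl0 : 0 ≤ Real.log N := Real.log_nonneg hN1
  set lam : ℕ → ℝ := fun n => Real.log (n : ℝ) with hlam
  set B : ℝ := C * (N : ℝ) ^ (ε / 3) * ((N : ℝ) + W.card) * N with hB
  have hB0 : 0 ≤ B := by positivity
  have hiter := iter (Icc 1 N) lam W hB0 hη (by
    intro S hS hne
    obtain ⟨G, hG, hcG, hGa⟩ := hq N hN T hT W hW S hS hne
    refine ⟨G, hG, hcG, ?_⟩
    intro b hb hbG
    have h1 := hGa b hbG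
    rw [Q_eq] at h1
    refine h1.trans ?_
    have hS1 : (1 : ℝ) ≤ S.card := by exact_mod_cast hne.card_pos
    have h2 : ∑ n ∈ G, ‖b n‖ ^ 2 ≤ S.card := by
      calc ∑ n ∈ G, ‖b n‖ ^ 2 ≤ ∑ n ∈ G, (1 : ℝ) := by
            apply sum_le_sum
            intro n _
            exact pow_le_one₀ (norm_nonneg _) (hb n)
        _ = G.card := by simp
        _ ≤ S.card := by exact_mod_cast card_le_card hG
    calc C * (N : ℝ) ^ (ε / 3) * ((N : ℝ) + W.card) * ((N : ℝ) / S.card) * ∑ n ∈ G, ‖b n‖ ^ 2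
        ≤ C * (N : ℝ) ^ (ε / 3) * ((N : ℝ) + W.card) * ((N : ℝ) / S.card) * S.card :=
          mul_le_mul_of_nonneg_left h2 (by positivity)
      _ = B := by rw [hB]; field_simp)
  set k : ℕ := ⌊Real.log N / Real.log (1 / η)⌋₊ + 1 with hk
  have hk1 : Real.log N / Real.log (1 / η) < k := by
    rw [hk]; push_cast; exact Nat.lt_floor_add_one _
  have hk2 : (k : ℝ) ≤ 1 + Real.log N / Real.log (1 / η) := by
    rw [hk]; push_cast
    have := Nat.floor_le (div_nonneg hl0 hlθ.le)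
    linarith
  have hkN : (((Icc 1 N).card : ℕ) : ℝ) < (1 / η) ^ k := by
    rw [Nat.card_Icc, Nat.add_sub_cancel]
    rw [div_lt_iff₀ hlθ] at hk1
    have : Real.log (N : ℝ) < Real.log ((1 / η) ^ k) := by rw [Real.log_pow]; exact hk1
    exact (Real.log_lt_log_iff hN0 (by positivity)).1 this
  set a' : ℕ → ℂ := fun n => if n ∈ Icc 1 N then a n else 0 with ha'
  have h1 := hiter k (Icc 1 N) Subset.rfl hkN a' (by
    intro n
    simp only [ha']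
    split_ifs
    · exact ha n
    · simp) (fun n hn => by simp only [ha']; rw [if_neg hn])
  rw [Q_congr (Icc 1 N) lam W a' a (fun n hn => by simp only [ha']; rw [if_pos hn])] at h1
  rw [Q_eq]
  refine h1.trans ?_
  have h2 : (k : ℝ) ≤ K' * (N : ℝ) ^ (ε / 3) := by
    have h3 := hlog N hN1
    calc (k : ℝ) ≤ 1 + Real.log N / Real.log (1 / η) := hk2
      _ ≤ (1 + 1 / Real.log (1 / η)) * (1 + Real.log N) := by
          have h4 : 0 ≤ 1 / Real.log (1 / η) := by positivity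
          have e : Real.log N / Real.log (1 / η) = 1 / Real.log (1 / η) * Real.log N := by ring
          rw [e]
          nlinarith
      _ ≤ (1 + 1 / Real.log (1 / η)) * (K * (N : ℝ) ^ (ε / 3)) :=
          mul_le_mul_of_nonneg_left h3 (by positivity)
      _ = _ := by rw [hK']; ring
  have e2 : (N : ℝ) ^ ε = (N : ℝ) ^ (ε / 3) * ((N : ℝ) ^ (ε / 3) * (N : ℝ) ^ (ε / 3)) := by
    rw [← Real.rpow_add hN0, ← Real.rpow_add hN0]; congr 1; ring
  calc (k : ℝ) ^ 2 * B ≤ (K' * (N : ℝ) ^ (ε / 3)) ^ 2 * B :=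
        mul_le_mul_of_nonneg_right (pow_le_pow_left₀ (Nat.cast_nonneg _) h2 2) hB0
    _ = _ := by rw [hB, e2]; ring

theorem result :
    -- one set `W` (any finite set of real numbers): weights for the norm from `ℓ^∞` to `ℓ²`
    (∀ (N : ℕ) (W : Finset ℝ) (M : ℝ), 1 ≤ N →
      (∀ a : ℕ → ℂ, (∀ n, ‖a n‖ ≤ 1) → ∑ t ∈ W, ‖D N a t‖ ^ 2 ≤ M) →
      ∃ w : ℕ → ℝ, (∀ n, 0 ≤ w n) ∧ ∑ n ∈ Icc 1 N, w n = 1 ∧
        ∀ a : ℕ → ℂ, ∑ t ∈ W, ‖D N a t‖ ^ 2 ≤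
          36 * (1 + Real.log N) * M * ∑ n ∈ Icc 1 N, w n * ‖a n‖ ^ 2) ∧
    -- Q1 is equivalent to the weighted `ℓ²` large sieve inequality
    (Question ↔ Weighted) ∧
    -- and to the `ℓ²` large sieve inequality after deletion
    ∀ η : ℝ, 0 < η → η < 1 → (Question ↔ Deleted η) :=
  ⟨fun N W M hN hM => one N hN W M hM, ⟨weighted_of, of_weighted⟩,
    fun _ hη hη1 => ⟨fun h => deleted_of h hη, of_deleted hη hη1⟩⟩

end Pool.Agent.Results.MP_71ac24_nt.WeightedLargeSieve
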